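import Pool.Agent.CUBH.Unfold
import Pool.Agent.CUB.StmtsV
import Pool.Agent.CUB.V_CUV

/-!
# CUBH: from smooth hypersurfaces given by sparse hypergraphs to all affine varieties
-/

set_option autoImplicit false

open CategoryTheory AlgebraicGeometry

namespace CUB

open Pool.Agent.Lib_helper55.Beil

universe v

namespace HG

open MvPolynomial in
/-- The cubic polynomial `∑ t_j f_j`. -/
lemma hyp_of_sp3 {k : Type} [Field k] (B : Set k) {a b n : ℕ} (r : Fin b ⊕ Fin a ≃ Fin n)
    (f : Fin b → MvPolynomial (Fin a) k) (H : Fin b → Finset (Finset (Fin a)))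
    (c : Fin b → k) (hf : ∀ j, Sp3 B (H j) (c j) (f j)) (hc : ∀ w, ∑ j, cnt (H j) w ≤ 3) :
    ∃ (H : Finset (Finset (Fin n))) (c : Fin n → k), Sparse H ∧
      (∀ v, c v = 0 ∨ c v ∈ B) ∧
      MvPolynomial.rename r (∑ j, X (Sum.inl j) * MvPolynomial.rename Sum.inr (f j) :
        MvPolynomial (Fin b ⊕ Fin a) k) = hyp H c := by
  classical
  have hinr : Function.Injective (fun v : Fin a => r (Sum.inr v)) := fun x y h =>
    Sum.inr_injective (r.injective h)
  let ed : Fin b → Finset (Fin a) → Finset (Fin n) := fun j e =>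
    insert (r (Sum.inl j)) (e.image fun v => r (Sum.inr v))
  have hnot : ∀ j j' (e : Finset (Fin a)), r (Sum.inl j) ∈ ed j' e → j = j' := by
    intro j j' e h
    rcases Finset.mem_insert.1 h with h | h
    · exact Sum.inl_injective (r.injective h)
    · obtain ⟨v, -, hv⟩ := Finset.mem_image.1 h
      exact absurd (r.injective hv) (by simp)
  have hnot' : ∀ x j' (e : Finset (Fin a)), r (Sum.inr x) ∈ ed j' e → x ∈ e := by
    intro x j' e h
    rcases Finset.mem_insert.1 h with h | h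
    · exact absurd (r.injective h) (by simp)
    · obtain ⟨v, hv, hvx⟩ := Finset.mem_image.1 h
      rwa [← hinr hvx]
  have hni : ∀ j (e : Finset (Fin a)), r (Sum.inl j) ∉ e.image fun v => r (Sum.inr v) := by
    intro j e h
    obtain ⟨v, -, hv⟩ := Finset.mem_image.1 h
    exact absurd (r.injective hv) (by simp)
  have hinj : ∀ j, Function.Injective (ed j) := by
    intro j e e' h
    have h4 : (ed j e).erase (r (Sum.inl j)) = (ed j e').erase (r (Sum.inl j)) := by rw [h]
    simp only [ed] at h4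
    rw [Finset.erase_insert (hni j e), Finset.erase_insert (hni j e')] at h4
    exact Finset.image_injective hinr h4
  refine ⟨Finset.univ.biUnion fun j => (H j).image (ed j),
    fun v => Sum.elim c (fun _ => 0) (r.symm v), ⟨?_, ?_⟩, ?_, ?_⟩
  · intro e he
    obtain ⟨j, -, he⟩ := Finset.mem_biUnion.1 he
    obtain ⟨e', he', rfl⟩ := Finset.mem_image.1 he
    have h4 := Finset.card_insert_le (r (Sum.inl j)) (e'.image fun v => r (Sum.inr v))
    have h5 : (e'.image fun v => r (Sum.inr v)).card ≤ e'.card := Finset.card_image_le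
    have h6 := (hf j).two e' he'
    change (insert (r (Sum.inl j)) (e'.image fun v => r (Sum.inr v))).card ≤ 3
    omega
  · intro v
    obtain ⟨x, rfl⟩ := r.surjective v
    rcases x with j | x
    · refine le_trans (Finset.card_le_card (t := (H j).image (ed j)) ?_)
        (Finset.card_image_le.trans (hf j).three)
      intro e he
      obtain ⟨he, hv⟩ := Finset.mem_filter.1 he
      obtain ⟨j', -, he⟩ := Finset.mem_biUnion.1 he
      obtain ⟨e', he', rfl⟩ := Finset.mem_image.1 he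
      rw [hnot j j' e' hv]
      exact Finset.mem_image.2 ⟨e', he', rfl⟩
    · refine le_trans (Finset.card_le_card
        (t := Finset.univ.biUnion fun j => ((H j).filter fun e => x ∈ e).image (ed j)) ?_) ?_
      · intro e he
        obtain ⟨he, hv⟩ := Finset.mem_filter.1 he
        obtain ⟨j', -, he⟩ := Finset.mem_biUnion.1 he
        obtain ⟨e', he', rfl⟩ := Finset.mem_image.1 he
        exact Finset.mem_biUnion.2 ⟨j', Finset.mem_univ _, Finset.mem_image.2
          ⟨e', Finset.mem_filter.2 ⟨he', hnot' x j' e' hv⟩, rfl⟩⟩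
      · refine Finset.card_biUnion_le.trans (le_trans (Finset.sum_le_sum fun j _ => ?_) (hc x))
        unfold cnt
        refine Finset.card_image_le.trans (le_of_eq ?_)
        congr!
  · intro v
    rcases h : r.symm v with j | j
    · simpa [h] using (hf j).const
    · simp [h]
  · have hlin : ∑ v, C (Sum.elim c (fun _ => (0 : k)) (r.symm v)) * (X v : MvPolynomial (Fin n) k) =
        ∑ j, C (c j) * X (r (Sum.inl j)) := by
      rw [← r.sum_comp]
      rw [Fintype.sum_sum_type]
      simp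
    unfold hyp
    rw [hlin, Finset.sum_biUnion, ← Finset.sum_add_distrib, map_sum]
    · refine Finset.sum_congr rfl fun j _ => ?_
      rw [Finset.sum_image fun x _ y _ h => hinj j h]
      rw [map_mul, rename_X, (hf j).eq, map_add, map_sum, rename_C, map_add, map_sum, rename_C,
        mul_add, Finset.mul_sum, mul_comm (X (r (Sum.inl j))) (C (c j))]
      congr 1
      refine Finset.sum_congr rfl fun e _ => ?_
      change _ = ∏ v ∈ insert (r (Sum.inl j)) (e.image fun v => r (Sum.inr v)), X v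
      rw [Finset.prod_insert (hni j e), Finset.prod_image fun x _ y _ h => hinr h, map_prod,
        map_prod]
      congr 1
      refine Finset.prod_congr rfl fun v _ => ?_
      rw [rename_X, rename_X]
    · intro j _ j' _ hjj
      rw [Function.onFun, Finset.disjoint_left]
      intro e he he'
      obtain ⟨e1, -, rfl⟩ := Finset.mem_image.1 he
      obtain ⟨e2, -, h4⟩ := Finset.mem_image.1 he'
      refine hjj (hnot j j' e2 ?_)
      rw [h4]
      exact Finset.mem_insert_self _ _

/-- The hypersurface `y ^ 2 - y = ∑ t_j f_j` is the one of a hypergraph polynomial. -/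
theorem cuv3 (k : Type) [Field k] (B : Set k) (a b n : ℕ) (hab : a + b = 3 * n)
    (f : Fin b → MvPolynomial (Fin a) k) (H : Fin b → Finset (Finset (Fin a)))
    (c : Fin b → k) (hf : ∀ j, Sp3 B (H j) (c j) (f j)) (hc : ∀ w, ∑ j, cnt (H j) w ≤ 3) :
    ∃ (H : Finset (Finset (Fin (3 * n)))) (c : Fin (3 * n) → k), Sparse H ∧
      (∀ v, c v = 0 ∨ c v ∈ B) ∧
      Nonempty (Q (MvPolynomial (Fin (3 * n)) k) (hyp H c) ≃ₐ[k]
        VR (MvPolynomial (Fin a) k) f) := by
  let G : MvPolynomial (Fin b ⊕ Fin a) k :=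
    ∑ j, MvPolynomial.X (Sum.inl j) * MvPolynomial.rename Sum.inr (f j)
  have hS : MvPolynomial.sumAlgEquiv k (Fin b) (Fin a) G = lin f := by
    have hr : ∀ p : MvPolynomial (Fin a) k,
        MvPolynomial.sumAlgEquiv k (Fin b) (Fin a) (MvPolynomial.rename Sum.inr p) =
          MvPolynomial.C p := by
      intro p
      exact DFunLike.congr_fun (MvPolynomial.sumAlgEquiv_comp_rename_inr (R := k)
        (S₁ := Fin b) (S₂ := Fin a)) p
    simp only [G, lin, map_sum, map_mul, hr, MvPolynomial.sumAlgEquiv_X_inl]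
  obtain ⟨H, c, h1, h2, h3⟩ := hyp_of_sp3 B (CUV.idx hab) f H c hf hc
  refine ⟨H, c, h1, h2, ⟨CUV.Qequiv
    ((MvPolynomial.renameEquiv k (CUV.idx hab)).symm.trans
      (MvPolynomial.sumAlgEquiv k (Fin b) (Fin a))) ?_⟩⟩
  rw [← h3, ← hS, AlgEquiv.trans_apply]
  congr 1
  rw [AlgEquiv.symm_apply_eq]
  rfl

/-- Presentations with the right numbers of variables and equations. -/
theorem exists_good (k A : Type) [Field k] [CommRing A] [Algebra k A] [Algebra.FiniteType k A]
    (B : Set k) (hB : Subring.closure B = ⊤) (hfin : B.Finite) (i : ℕ) :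
    ∃ (n N m : ℕ), N + (m + 1) = 3 * n ∧ 2 * n = i + (m + 1) ∧ i < N ∧
      Good k A B (Fin N) (Fin (m + 1)) := by
  classical
  obtain ⟨ι, _, _, m, h⟩ := exists_raw k A B hB hfin
  have := Fintype.ofFinite ι
  obtain ⟨M, hM⟩ : ∃ M, M = m + 3 * i + 1 := ⟨_, rfl⟩
  have h1 := unfold_good k A B ι m M (by omega) h
  obtain ⟨N, hN⟩ : ∃ N, N = Fintype.card ι := ⟨_, rfl⟩
  have hN1 : 1 ≤ N := by
    rw [hN]
    exact Fintype.card_pos
  obtain ⟨P, hP⟩ : ∃ P, P = N * M := ⟨_, rfl⟩
  have hMP : M ≤ P := by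
    rw [hP]
    exact Nat.le_mul_of_pos_left M hN1
  have c1 : Fintype.card (ι × Fin (2 * M + 1)) = 2 * P + N := by
    rw [Fintype.card_prod, Fintype.card_fin, ← hN, hP]
    ring
  have c2 : Fintype.card (Fin m ⊕ (ι × Fin (2 * M))) = m + 2 * P := by
    rw [Fintype.card_sum, Fintype.card_prod, Fintype.card_fin, Fintype.card_fin, ← hN, hP]
    ring
  have h2 := h1.reindex (Fintype.equivFinOfCardEq c1) (Fintype.equivFinOfCardEq c2)
  obtain ⟨z, hz⟩ : ∃ z, (m + 2 * P) + z = (4 * P + 2 * N - 3 * i - 1) + 1 :=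
    ⟨(4 * P + 2 * N - 3 * i - 1) + 1 - (m + 2 * P), by omega⟩
  have h3 := (h2.addZero z).reindex (Equiv.refl _) (finCongr hz)
  exact ⟨2 * P + N - i, 2 * P + N, 4 * P + 2 * N - 3 * i - 1, by omega, by omega, by omega, h3⟩

theorem core3 (hS : S_SMO) (hI : S_SMI) (hZ : S_ZPOL)
    (hR : S_RED.{v}) (k E : Type) [Field k] [Finite k] [Field E] [CharZero E]
    (B : Set k) (hB : Subring.closure B = ⊤)
    (T : ∀ i : ℕ, Homology.{v} k E i) (hT : Extra T) (i : ℕ) (A : Type) [CommRing A]
    [Algebra k A] [Algebra.FiniteType k A] :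
    ∃ (n : ℕ) (H : Finset (Finset (Fin (3 * n)))) (c : Fin (3 * n) → k),
      Sparse H ∧ (∀ v, c v = 0 ∨ c v ∈ B) ∧ Smooth (cubic (hyp H c)).f ∧
      ((T (2 * n)).Inj (cubic (hyp H c)) → (T i).Inj (aff k A)) ∧
      ((T (2 * n)).Surj (cubic (hyp H c)) → (T i).Surj (aff k A)) := by
  obtain ⟨n, N, m, h3n, h2, hiN, f', φ', H', b', hφ', hk', hf', hc'⟩ :=
    exists_good k A B hB (Set.toFinite B) i
  obtain ⟨H, c, h1, h0, ⟨e⟩⟩ := cuv3 k B N (m + 1) n h3n f' H' b' hf' hc'
  have hs : Smooth (cubic (hyp H c)).f := hI k _ _ e.symm (hS k _ _ f')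
  obtain ⟨r1, r2⟩ := hR k E T hT (MvPolynomial (Fin N) k) A m i f' φ' hφ' hk'
    (fun z => hZ k E N i hiN z)
  refine ⟨n, H, c, h1, h0, hs, fun h => r1 ?_, fun h => r2 ?_⟩
  · rw [h2] at h
    exact (inj_viso (T _) (viso e)).mpr h
  · rw [h2] at h
    exact (surj_viso T _ (viso e)).mpr h

end HG

/-- From smooth hypersurfaces given by sparse hypergraphs to all affine varieties. -/
def S_MAIN3 : Prop := ∀ (k E : Type) [Field k] [Finite k] [Field E] [CharZero E]
  (B : Set k), Subring.closure B = ⊤ → ∀ (T : ∀ i : ℕ, Homology.{v} k E i), Extra T →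
  ((∀ (n : ℕ) (H : Finset (Finset (Fin (3 * n)))) (c : Fin (3 * n) → k), Sparse H →
    (∀ v, c v = 0 ∨ c v ∈ B) → Smooth (cubic (hyp H c)).f →
    (T (2 * n)).Inj (cubic (hyp H c))) → ∀ (i : ℕ) (X : Var k), IsAffine X.X → (T i).Inj X) ∧
  ((∀ (n : ℕ) (H : Finset (Finset (Fin (3 * n)))) (c : Fin (3 * n) → k), Sparse H →
    (∀ v, c v = 0 ∨ c v ∈ B) → Smooth (cubic (hyp H c)).f →
    (T (2 * n)).Surj (cubic (hyp H c))) → ∀ (i : ℕ) (X : Var k), IsAffine X.X → (T i).Surj X)

theorem t_MAIN3 : S_SMO → S_SMI → S_ZPOL → S_RED.{v} → S_MAIN3.{v} := by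
  intro hS hI hZ hR k E _ _ _ _ B hB T hT
  constructor
  · intro h i X hX
    obtain ⟨A, _, _, _, ⟨s⟩⟩ := exists_aff X
    obtain ⟨n, H, c, h1, h2, h3, h4, -⟩ := HG.core3 hS hI hZ hR k E B hB T hT i A
    exact (inj_viso (T i) s).mp (h4 (h n H c h1 h2 h3))
  · intro h i X hX
    obtain ⟨A, _, _, _, ⟨s⟩⟩ := exists_aff X
    obtain ⟨n, H, c, h1, h2, h3, -, h4⟩ := HG.core3 hS hI hZ hR k E B hB T hT i A
    exact (surj_viso T i s).mp (h4 (h n H c h1 h2 h3))

end CUB
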