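import Pool.Agent.CUB.Bridge

/-!
# CUBH: hypergraph polynomials

The polynomial of a hypergraph `H` with vertices `1, ..., N` is the sum over the edges `e` of `H` of
the products of the variables `x_v`, `v ∈ e`; a linear form with prescribed coefficients is added.
-/

set_option autoImplicit false

namespace CUB

open MvPolynomial

/-- The polynomial `∑_{e ∈ H} ∏_{v ∈ e} x_v + ∑_v c_v x_v` in the variables `x_v`. -/
noncomputable def hyp {k : Type} [Field k] {N : ℕ} (H : Finset (Finset (Fin N))) (c : Fin N → k) :
    MvPolynomial (Fin N) k :=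
  ∑ e ∈ H, ∏ v ∈ e, X v + ∑ v, C (c v) * X v

/-- The edges of the hypergraph `H` have at most three vertices, and every vertex is in at most
three edges. -/
def Sparse {N : ℕ} (H : Finset (Finset (Fin N))) : Prop :=
  (∀ e ∈ H, e.card ≤ 3) ∧ ∀ v, (H.filter fun e => v ∈ e).card ≤ 3

end CUB
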