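import Pool.Agent.CUBH.Quad

/-!
# CUBH: the presentation by squarefree equations
-/

set_option autoImplicit false

namespace CUB

namespace HG

open MvPolynomial

/-- general index types -/
lemma general {k A : Type} [Field k] [CommRing A] [Algebra k A] [Algebra.FiniteType k A]
    (B : Set k) (hB : Subring.closure B = ⊤) (hfin : B.Finite) :
    ∃ (ι : Type) (_ : Finite ι) (E : Finset (MvPolynomial ι k)) (φ : MvPolynomial ι k →ₐ[k] A),
      Function.Surjective φ ∧ RingHom.ker φ.toRingHom = Ideal.span (E : Set (MvPolynomial ι k)) ∧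
      ∀ f ∈ E, Sp B f := by
  classical
  obtain ⟨n, π, hπ⟩ := Algebra.FiniteType.iff_quotient_mvPolynomial''.1
    (inferInstance : Algebra.FiniteType k A)
  obtain ⟨G, hG⟩ : (RingHom.ker π.toRingHom).FG := IsNoetherian.noetherian _
  -- the closed set of polynomials
  choose St hSt hmem using fun p => mem_W (B := B) (n := n) hB p
  let S0 : Finset (MvPolynomial (Fin n) k) :=
    (G ∪ Finset.univ.image fun i : Fin n => X i).biUnion St
  have hS0 : Closed B n S0 := Closed.biUnion _ _ hSt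
  let S : Finset (MvPolynomial (Fin n) k) := S0 ∪ S0.image fun p => -p
  have hS : Closed B n S := hS0.neg
  have hGS : ∀ g ∈ G, g ∈ S := fun g hg => Finset.mem_union_left _
    (Finset.mem_biUnion.2 ⟨g, Finset.mem_union_left _ hg, hmem g⟩)
  have hXS : ∀ i, X i ∈ S := fun i => Finset.mem_union_left _
    (Finset.mem_biUnion.2 ⟨X i, Finset.mem_union_right _
      (Finset.mem_image.2 ⟨i, Finset.mem_univ i, rfl⟩), hmem (X i)⟩)
  have hneg : ∀ p ∈ S, -p ∈ S := by
    intro p hp
    rcases Finset.mem_union.1 hp with hp | hp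
    · exact Finset.mem_union_right _ (Finset.mem_image.2 ⟨p, hp, rfl⟩)
    · obtain ⟨q, hq, rfl⟩ := Finset.mem_image.1 hp
      rw [neg_neg]
      exact Finset.mem_union_left _ hq
  let ι := Fin 3 × {p // p ∈ S}
  let θ : MvPolynomial ι k →ₐ[k] MvPolynomial (Fin n) k := aeval fun a => a.2.1
  have hθ : ∀ (i : Fin 3) (p : {p // p ∈ S}), θ (X (i, p)) = p.1 := fun i p => by
    simp only [θ, aeval_X]
  -- the equations
  let E1 : Finset (MvPolynomial ι k) :=
    ((Finset.univ : Finset (Finset (Fin 3) × (Fin 3 → {p // p ∈ S}))).filter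
      fun z => ∑ i ∈ z.1, (z.2 i).1 = 0).image fun z => ∑ i ∈ z.1, X (i, z.2 i)
  let E2 : Finset (MvPolynomial ι k) :=
    ((Finset.univ : Finset ({p // p ∈ S} × {p // p ∈ S} × {p // p ∈ S})).filter
      fun z => z.1.1 * z.2.1.1 + z.2.2.1 = 0).image
        fun z => X (0, z.1) * X (1, z.2.1) + X (2, z.2.2)
  let E3 : Finset (MvPolynomial ι k) :=
    ((Finset.univ : Finset {p // p ∈ S}).filter fun z => z.1 = -1).image
      fun z => X (0, z) + 1
  let E4 : Finset (MvPolynomial ι k) :=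
    ((hfin.toFinset ×ˢ (Finset.univ : Finset {p // p ∈ S})).filter
      fun z => z.2.1 = -C z.1).image fun z => X (0, z.2) + C z.1
  let E5 : Finset (MvPolynomial ι k) :=
    ((Finset.univ : Finset {p // p ∈ S}).filter fun z => z.1 ∈ G).image
      fun z => X (0, z)
  let E := E1 ∪ E2 ∪ E3 ∪ E4 ∪ E5
  let J : Ideal (MvPolynomial ι k) := Ideal.span (E : Set (MvPolynomial ι k))
  have hJ1 : ∀ (I : Finset (Fin 3)) (a : Fin 3 → {p // p ∈ S}), ∑ i ∈ I, (a i).1 = 0 →
      ∑ i ∈ I, X (i, a i) ∈ J := by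
    intro I a h
    refine Ideal.subset_span ?_
    have : (∑ i ∈ I, X (i, a i) : MvPolynomial ι k) ∈ E1 :=
      Finset.mem_image.2 ⟨(I, a), Finset.mem_filter.2 ⟨Finset.mem_univ _, h⟩, rfl⟩
    simp only [E, Finset.coe_union, Set.mem_union, Finset.mem_coe, this, true_or]
  have hJ2 : ∀ p q r : {p // p ∈ S}, p.1 * q.1 + r.1 = 0 →
      X (0, p) * X (1, q) + X (2, r) ∈ J := by
    intro p q r h
    refine Ideal.subset_span ?_
    have : (X (0, p) * X (1, q) + X (2, r) : MvPolynomial ι k) ∈ E2 :=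
      Finset.mem_image.2 ⟨(p, q, r), Finset.mem_filter.2 ⟨Finset.mem_univ _, h⟩, rfl⟩
    simp only [E, Finset.coe_union, Set.mem_union, Finset.mem_coe, this, true_or, or_true]
  have hJ3 : ∀ p : {p // p ∈ S}, p.1 = -1 → X (0, p) + 1 ∈ J := by
    intro p h
    refine Ideal.subset_span ?_
    have : (X (0, p) + 1 : MvPolynomial ι k) ∈ E3 :=
      Finset.mem_image.2 ⟨p, Finset.mem_filter.2 ⟨Finset.mem_univ _, h⟩, rfl⟩
    simp only [E, Finset.coe_union, Set.mem_union, Finset.mem_coe, this, true_or, or_true]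
  have hJ4 : ∀ b ∈ B, ∀ p : {p // p ∈ S}, p.1 = -C b → X (0, p) + C b ∈ J := by
    intro b hb p h
    refine Ideal.subset_span ?_
    have : (X (0, p) + C b : MvPolynomial ι k) ∈ E4 :=
      Finset.mem_image.2 ⟨(b, p), Finset.mem_filter.2
        ⟨Finset.mem_product.2 ⟨hfin.mem_toFinset.2 hb, Finset.mem_univ _⟩, h⟩, rfl⟩
    simp only [E, Finset.coe_union, Set.mem_union, Finset.mem_coe, this, true_or, or_true]
  have hJ5 : ∀ p : {p // p ∈ S}, p.1 ∈ G → X (0, p) ∈ J := by
    intro p h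
    refine Ideal.subset_span ?_
    have : (X (0, p) : MvPolynomial ι k) ∈ E5 :=
      Finset.mem_image.2 ⟨p, Finset.mem_filter.2 ⟨Finset.mem_univ _, h⟩, rfl⟩
    simp only [E, Finset.coe_union, Set.mem_union, Finset.mem_coe, this, or_true]
  let q : MvPolynomial ι k →ₐ[k] (MvPolynomial ι k ⧸ J) := Ideal.Quotient.mkₐ k J
  have hq0 : ∀ x, x ∈ J → q x = 0 := fun x h => Ideal.Quotient.eq_zero_iff_mem.2 h
  -- the three copies of the variables agree
  have hpair : ∀ (i j : Fin 3), i ≠ j → ∀ p r : {p // p ∈ S}, p.1 + r.1 = 0 →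
      q (X (i, p)) + q (X (j, r)) = 0 := by
    intro i j hij p r h
    have h1 := hq0 _ (hJ1 {i, j} (fun l => if l = i then p else r) (by
      rw [Finset.sum_pair hij, if_pos rfl, if_neg hij.symm]
      exact h))
    rw [Finset.sum_pair hij, if_pos rfl, if_neg hij.symm, map_add] at h1
    exact h1
  let nn : {p // p ∈ S} → {p // p ∈ S} := fun p => ⟨-p.1, hneg p.1 p.2⟩
  have hn : ∀ (i j : Fin 3), i ≠ j → ∀ p, q (X (i, p)) = -q (X (j, nn p)) := by
    intro i j hij p
    exact eq_neg_of_add_eq_zero_left (hpair i j hij p (nn p) (add_neg_cancel _))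
  have hnn : ∀ p, nn (nn p) = p := fun p => Subtype.ext (neg_neg p.1)
  have h12 : ∀ p, q (X (1, p)) = q (X (2, p)) := by
    intro p
    have h1 := hn 0 1 (by decide) (nn p)
    have h2 := hn 0 2 (by decide) (nn p)
    rw [hnn] at h1 h2
    rw [h1] at h2
    exact neg_injective h2
  have h1n : ∀ p, q (X (1, nn p)) = -q (X (1, p)) := by
    intro p
    have h1 := hn 1 2 (by decide) (nn p)
    rw [hnn, ← h12] at h1
    exact h1
  have h01 : ∀ p, q (X (0, p)) = q (X (1, p)) := by
    intro p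
    rw [hn 0 1 (by decide) p, h1n, neg_neg]
  have hall : ∀ (i : Fin 3) (p : {p // p ∈ S}), q (X (i, p)) = q (X (0, p)) := by
    intro i p
    fin_cases i
    · rfl
    · exact (h01 p).symm
    · exact ((h01 p).trans (h12 p)).symm
  -- the values
  let v : MvPolynomial (Fin n) k → MvPolynomial ι k ⧸ J := fun p =>
    if h : p ∈ S then q (X (0, ⟨p, h⟩)) else 0
  have hv : ∀ p (h : p ∈ S), v p = q (X (0, ⟨p, h⟩)) := fun p h => dif_pos h
  have hrel : Rel B n S v := by
    refine ⟨?_, ?_, ?_, ?_, ?_, ?_⟩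
    · intro h
      rw [hv _ h]
      have h1 := hq0 _ (hJ1 {0} (fun _ => ⟨0, h⟩) (by simp))
      rwa [Finset.sum_singleton] at h1
    · intro p hp hp'
      rw [hv _ hp, hv _ hp', h01, h01]
      exact h1n ⟨p, hp⟩
    · intro p hp r hr s hs e
      rw [hv _ hp, hv _ hr, hv _ hs]
      let a : Fin 3 → {p // p ∈ S} := ![⟨p, hp⟩, ⟨r, hr⟩, ⟨s, hs⟩]
      have h1 := hq0 _ (hJ1 Finset.univ a (by
        rw [Fin.sum_univ_three]
        exact e))
      rw [Fin.sum_univ_three, map_add, map_add, hall 1, hall 2] at h1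
      exact h1
    · intro p hp r hr s hs e
      rw [hv _ hp, hv _ hr, hv _ hs]
      have h1 := hq0 _ (hJ2 ⟨p, hp⟩ ⟨r, hr⟩ ⟨s, hs⟩ e)
      rw [map_add, map_mul, hall 1, hall 2] at h1
      exact h1
    · intro h
      rw [hv _ h]
      have h1 := hq0 _ (hJ3 ⟨-1, h⟩ rfl)
      rw [map_add, map_one] at h1
      exact eq_neg_of_add_eq_zero_left h1
    · intro b hb h
      rw [hv _ h]
      have h1 := hq0 _ (hJ4 b hb ⟨-C b, h⟩ rfl)
      have h2 : q (C b) = algebraMap k (MvPolynomial ι k ⧸ J) b := q.commutes b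
      rw [map_add, h2] at h1
      exact eq_neg_of_add_eq_zero_left h1
  let ψ : MvPolynomial (Fin n) k →ₐ[k] (MvPolynomial ι k ⧸ J) := aeval fun i => v (X i)
  have hψX : ∀ i, ψ (X i) = v (X i) := fun i => by simp only [ψ, aeval_X]
  have hψ : ∀ p ∈ S, ψ p = v p := hS _ v hrel ψ fun i _ => hψX i
  have hker : RingHom.ker π.toRingHom ≤ RingHom.ker ψ.toRingHom := by
    rw [← hG, Ideal.span_le]
    intro g hgG
    have h1 : ψ g = 0 := by
      rw [hψ g (hGS g hgG), hv g (hGS g hgG)]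
      exact hq0 _ (hJ5 ⟨g, hGS g hgG⟩ hgG)
    exact h1
  have hqθ : ∀ p, q p = ψ (θ p) := by
    have : q = ψ.comp θ := by
      refine MvPolynomial.algHom_ext fun a => ?_
      obtain ⟨i, p, hp⟩ := a
      rw [AlgHom.comp_apply, hθ, hψ p hp, hv p hp]
      exact hall i ⟨p, hp⟩
    intro p
    rw [this]
    rfl
  refine ⟨ι, inferInstance, E, π.comp θ, ?_, ?_, ?_⟩
  · intro b
    obtain ⟨p, rfl⟩ := hπ b
    refine ⟨aeval (fun i => X (0, ⟨X i, hXS i⟩)) p, ?_⟩
    rw [AlgHom.comp_apply]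
    congr 1
    have : (θ.comp (aeval fun i => X (0, ⟨X i, hXS i⟩))) = AlgHom.id k _ := by
      refine MvPolynomial.algHom_ext fun i => ?_
      rw [AlgHom.comp_apply, aeval_X, hθ]
      rfl
    exact DFunLike.congr_fun this p
  · apply le_antisymm
    · intro p hp
      have h1 : π (θ p) = 0 := hp
      have h2 : ψ (θ p) = 0 := hker h1
      rw [← hqθ] at h2
      exact Ideal.Quotient.eq_zero_iff_mem.1 h2
    · rw [Ideal.span_le]
      intro f hf
      change π (θ f) = 0
      simp only [E, Finset.coe_union, Set.mem_union, Finset.mem_coe] at hf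
      rcases hf with (((hf | hf) | hf) | hf) | hf
      · obtain ⟨z, hz, rfl⟩ := Finset.mem_image.1 hf
        obtain ⟨-, hz⟩ := Finset.mem_filter.1 hz
        rw [map_sum, Finset.sum_congr rfl fun i _ => hθ i (z.2 i), hz, map_zero]
      · obtain ⟨z, hz, rfl⟩ := Finset.mem_image.1 hf
        obtain ⟨-, hz⟩ := Finset.mem_filter.1 hz
        rw [map_add, map_mul, hθ, hθ, hθ, hz, map_zero]
      · obtain ⟨z, hz, rfl⟩ := Finset.mem_image.1 hf
        obtain ⟨-, hz⟩ := Finset.mem_filter.1 hz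
        rw [map_add, hθ, hz, map_one, neg_add_cancel, map_zero]
      · obtain ⟨z, hz, rfl⟩ := Finset.mem_image.1 hf
        obtain ⟨-, hz⟩ := Finset.mem_filter.1 hz
        rw [map_add, hθ, hz, ← algebraMap_eq, ← algebraMap_eq, AlgHom.commutes,
          neg_add_cancel, map_zero]
      · obtain ⟨z, hz, rfl⟩ := Finset.mem_image.1 hf
        obtain ⟨-, hz⟩ := Finset.mem_filter.1 hz
        rw [hθ]
        have : z.1 ∈ RingHom.ker π.toRingHom := by
          rw [← hG]
          exact Ideal.subset_span hz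
        exact this
  · intro f hf
    simp only [E, Finset.mem_union] at hf
    rcases hf with (((hf | hf) | hf) | hf) | hf
    · obtain ⟨z, hz, rfl⟩ := Finset.mem_image.1 hf
      exact Sp.sum B z.1 (fun i => (i, z.2 i)) fun i j h => congrArg Prod.fst h
    · obtain ⟨z, hz, rfl⟩ := Finset.mem_image.1 hf
      exact Sp.mulAdd B _ _ _ fun h => absurd (congrArg Prod.fst h)
        (show ¬ ((0 : Fin 3) = 1) by decide)
    · obtain ⟨z, hz, rfl⟩ := Finset.mem_image.1 hf
      exact Sp.varOne B _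
    · obtain ⟨z, hz, rfl⟩ := Finset.mem_image.1 hf
      obtain ⟨hz, -⟩ := Finset.mem_filter.1 hz
      exact Sp.varC B _ _ (hfin.mem_toFinset.1 (Finset.mem_product.1 hz).1)
    · obtain ⟨z, hz, rfl⟩ := Finset.mem_image.1 hf
      exact Sp.var B _

end HG

end CUB
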