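import Pool.Agent.CUBH.Defs

/-!
# CUBH: squarefree equations with at most three disjoint monomials
-/

set_option autoImplicit false

namespace CUB

namespace HG

open MvPolynomial

variable {k : Type} [Field k] {ι κ : Type}

/-- `f` is the sum of the squarefree monomials given by the elements of `H`, which are at most
three pairwise disjoint sets with at most two elements, plus a constant `b` which is zero or an
element of `B`. -/
structure Sp3 (B : Set k) (H : Finset (Finset ι)) (b : k) (f : MvPolynomial ι k) : Prop where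
  two : ∀ e ∈ H, e.card ≤ 2
  three : H.card ≤ 3
  disj : ∀ e ∈ H, ∀ e' ∈ H, ∀ v, v ∈ e → v ∈ e' → e = e'
  const : b = 0 ∨ b ∈ B
  eq : f = ∑ e ∈ H, ∏ v ∈ e, X v + C b

/-- Some data as in `Sp3` exist. -/
def SP (B : Set k) (f : MvPolynomial ι k) : Prop := ∃ H b, Sp3 B H b f

lemma Sp3.zero (B : Set k) : Sp3 B ∅ 0 (0 : MvPolynomial ι k) :=
  ⟨by simp, by simp, by simp, Or.inl rfl, by simp⟩

lemma Sp3.one_var (B : Set k) (v : ι) (b : k) (hb : b = 0 ∨ b ∈ B) :
    Sp3 B {{v}} b (X v + C b : MvPolynomial ι k) := by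
  refine ⟨by simp, by simp, ?_, hb, by simp⟩
  intro e he e' he' w _ _
  rw [Finset.mem_singleton.1 he, Finset.mem_singleton.1 he']

lemma SP.var (B : Set k) (v : ι) : SP B (X v : MvPolynomial ι k) :=
  ⟨{{v}}, 0, by simpa using Sp3.one_var B v 0 (Or.inl rfl)⟩

lemma SP.varC (B : Set k) (v : ι) (b : k) (hb : b ∈ B) :
    SP B (X v + C b : MvPolynomial ι k) :=
  ⟨{{v}}, b, Sp3.one_var B v b (Or.inr hb)⟩

lemma SP.varOne (B : Set k) (v : ι) : SP B (X v + 1 : MvPolynomial ι k) := by
  classical
  refine ⟨{{v}, ∅}, 0, ?_, ?_, ?_, Or.inl rfl, ?_⟩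
  · intro e he
    rw [Finset.mem_insert, Finset.mem_singleton] at he
    rcases he with rfl | rfl <;> simp
  · exact (Finset.card_le_two).trans (by norm_num)
  · intro e he e' he' w hw hw'
    rw [Finset.mem_insert, Finset.mem_singleton] at he he'
    rcases he with rfl | rfl
    · rcases he' with rfl | rfl
      · rfl
      · simp at hw'
    · simp at hw
  · rw [Finset.sum_pair (Finset.singleton_ne_empty v)]
    simp

lemma SP.mulAdd (B : Set k) (u v w : ι) (huv : u ≠ v) (huw : u ≠ w) (hvw : v ≠ w) :
    SP B (X u * X v + X w : MvPolynomial ι k) := by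
  classical
  refine ⟨{{u, v}, {w}}, 0, ?_, ?_, ?_, Or.inl rfl, ?_⟩
  · intro e he
    rw [Finset.mem_insert, Finset.mem_singleton] at he
    rcases he with rfl | rfl
    · rw [Finset.card_pair huv]
    · simp
  · exact (Finset.card_le_two).trans (by norm_num)
  · intro e he e' he' x hx hx'
    rw [Finset.mem_insert, Finset.mem_singleton] at he he'
    rcases he with rfl | rfl <;> rcases he' with rfl | rfl
    · rfl
    · simp only [Finset.mem_insert, Finset.mem_singleton] at hx hx'
      rcases hx with rfl | rfl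
      · exact absurd hx' huw
      · exact absurd hx' hvw
    · simp only [Finset.mem_insert, Finset.mem_singleton] at hx hx'
      rcases hx' with rfl | rfl
      · exact absurd hx huw
      · exact absurd hx hvw
    · rfl
  · have h : ({u, v} : Finset ι) ≠ {w} := by
      intro h
      have h1 := congrArg Finset.card h
      rw [Finset.card_pair huv, Finset.card_singleton] at h1
      omega
    rw [Finset.sum_pair h, Finset.prod_pair huv]
    simp

lemma SP.sum (B : Set k) (I : Finset (Fin 3)) (g : Fin 3 → ι) (hg : Function.Injective g) :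
    SP B (∑ i ∈ I, X (g i) : MvPolynomial ι k) := by
  classical
  refine ⟨I.image fun i => {g i}, 0, ?_, ?_, ?_, Or.inl rfl, ?_⟩
  · intro e he
    obtain ⟨i, -, rfl⟩ := Finset.mem_image.1 he
    simp
  · exact Finset.card_image_le.trans (Finset.card_le_univ I)
  · intro e he e' he' w hw hw'
    obtain ⟨i, -, rfl⟩ := Finset.mem_image.1 he
    obtain ⟨j, -, rfl⟩ := Finset.mem_image.1 he'
    rw [Finset.mem_singleton] at hw hw'
    rw [← hw, ← hw']
  · rw [Finset.sum_image]
    · simp
    · intro i _ j _ h
      exact hg (Finset.singleton_injective h)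

open Classical in
/-- The image of a family of sets. -/
noncomputable def im (j : ι → κ) (H : Finset (Finset ι)) : Finset (Finset κ) :=
  H.image (Finset.image j)

open Classical in
lemma Sp3.rename {B : Set k} {H : Finset (Finset ι)} {b : k} {f : MvPolynomial ι k}
    (hf : Sp3 B H b f) (j : ι → κ) (hj : Function.Injective j) :
    Sp3 B (im j H) b (MvPolynomial.rename j f) := by
  refine ⟨?_, ?_, ?_, hf.const, ?_⟩
  · intro e he
    obtain ⟨e', he', rfl⟩ := Finset.mem_image.1 he
    exact Finset.card_image_le.trans (hf.two e' he')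
  · exact Finset.card_image_le.trans hf.three
  · intro e he e' he' v hv hv'
    obtain ⟨e1, he1, rfl⟩ := Finset.mem_image.1 he
    obtain ⟨e2, he2, rfl⟩ := Finset.mem_image.1 he'
    obtain ⟨x, hx, rfl⟩ := Finset.mem_image.1 hv
    obtain ⟨y, hy, hxy⟩ := Finset.mem_image.1 hv'
    rw [hj hxy] at hy
    rw [hf.disj e1 he1 e2 he2 x hx hy]
  · rw [hf.eq, map_add, map_sum, rename_C]
    unfold im
    rw [Finset.sum_image]
    · congr 1
      refine Finset.sum_congr rfl fun e _ => ?_
      rw [map_prod, Finset.prod_image (fun x _ y _ h => hj h)]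
      refine Finset.prod_congr rfl fun v _ => ?_
      rw [rename_X]
    · intro e _ e' _ h
      exact Finset.image_injective hj h

open Classical in
/-- The number of elements of `H` which contain `v`. -/
noncomputable def cnt (H : Finset (Finset ι)) (v : ι) : ℕ := (H.filter fun e => v ∈ e).card

lemma cnt_empty (v : ι) : cnt (∅ : Finset (Finset ι)) v = 0 := by
  simp [cnt]

lemma Sp3.cnt_le {B : Set k} {H : Finset (Finset ι)} {b : k} {f : MvPolynomial ι k}
    (hf : Sp3 B H b f) (v : ι) : cnt H v ≤ 1 := by
  classical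
  unfold cnt
  rw [Finset.card_le_one]
  intro e he e' he'
  rw [Finset.mem_filter] at he he'
  exact hf.disj e he.1 e' he'.1 v he.2 he'.2

lemma cnt_im_of_not (j : ι → κ) (H : Finset (Finset ι)) (w : κ) (hw : w ∉ Set.range j) :
    cnt (im j H) w = 0 := by
  classical
  unfold cnt im
  rw [Finset.card_eq_zero, Finset.filter_eq_empty_iff]
  intro e he h
  obtain ⟨e', -, rfl⟩ := Finset.mem_image.1 he
  obtain ⟨v, -, hv⟩ := Finset.mem_image.1 h
  exact hw ⟨v, hv⟩

lemma cnt_im (j : ι → κ) (hj : Function.Injective j) (H : Finset (Finset ι)) (v : ι) :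
    cnt (im j H) (j v) = cnt H v := by
  classical
  unfold cnt im
  rw [Finset.filter_image, Finset.card_image_of_injective _ (Finset.image_injective hj)]
  congr 1
  refine Finset.filter_congr fun e _ => ?_
  rw [Finset.mem_image]
  exact ⟨fun ⟨x, hx, h⟩ => hj h ▸ hx, fun h => ⟨v, h, rfl⟩⟩

end HG

end CUB
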