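import Pool.Agent.CUBH.Gen
import Pool.Agent.CUB.V_PAD
import Pool.Agent.CUB.V_CUV

/-!
# CUBH: from smooth hypersurfaces given by hypergraphs to all affine varieties
-/

set_option autoImplicit false

open Polynomial CategoryTheory AlgebraicGeometry

namespace CUB

open Pool.Agent.Lib_helper55.Beil

universe v

namespace HG

/-- Presentations by squarefree equations. -/
theorem quad (k A : Type) [Field k] [CommRing A] [Algebra k A] [Algebra.FiniteType k A]
    (B : Set k) (hB : Subring.closure B = ⊤) (hfin : B.Finite) :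
    ∃ (N m : ℕ) (f : Fin m → MvPolynomial (Fin N) k)
      (φ : MvPolynomial (Fin N) k →ₐ[k] A), Function.Surjective φ ∧
      RingHom.ker φ.toRingHom = Ideal.span (Set.range f) ∧ ∀ j, Sp B (f j) := by
  classical
  obtain ⟨ι, hι, E, φ, h1, h2, h3⟩ := general (k := k) (A := A) B hB hfin
  have := Fintype.ofFinite ι
  let r : ι ≃ Fin (Fintype.card ι) := Fintype.equivFin ι
  let ρ : MvPolynomial ι k ≃ₐ[k] MvPolynomial (Fin (Fintype.card ι)) k :=
    MvPolynomial.renameEquiv k r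
  refine ⟨Fintype.card ι, E.card, fun j => ρ (E.equivFin.symm j).1,
    φ.comp ρ.symm.toAlgHom, ?_, ?_, ?_⟩
  · exact h1.comp ρ.symm.surjective
  · have hr : (Set.range fun j : Fin E.card => ρ (E.equivFin.symm j).1) =
        ρ '' (E : Set (MvPolynomial ι k)) := by
      ext x
      constructor
      · rintro ⟨j, rfl⟩
        exact ⟨_, (E.equivFin.symm j).2, rfl⟩
      · rintro ⟨y, hy, rfl⟩
        refine ⟨E.equivFin ⟨y, hy⟩, ?_⟩
        simp
    rw [hr]
    have h4 : Ideal.span (ρ '' (E : Set (MvPolynomial ι k))) =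
        (Ideal.span (E : Set (MvPolynomial ι k))).map ρ.toAlgHom.toRingHom := by
      rw [Ideal.map_span]
      rfl
    rw [h4, ← h2]
    ext x
    constructor
    · intro hx
      have h5 : φ (ρ.symm x) = 0 := hx
      have h6 : ρ.symm x ∈ RingHom.ker φ.toRingHom := h5
      have h7 := Ideal.mem_map_of_mem ρ.toAlgHom.toRingHom h6
      have h8 : ρ.toAlgHom.toRingHom (ρ.symm x) = x := ρ.apply_symm_apply x
      rw [h8] at h7
      exact h7
    · intro hx
      have h5 : (RingHom.ker φ.toRingHom).map ρ.toAlgHom.toRingHom ≤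
          RingHom.ker (φ.comp ρ.symm.toAlgHom).toRingHom := by
        rw [Ideal.map_le_iff_le_comap]
        intro y hy
        have h6 : φ y = 0 := hy
        change φ (ρ.symm (ρ y)) = 0
        rw [ρ.symm_apply_apply]
        exact h6
      exact h5 hx
  · intro j
    exact Sp.rename B r r.injective _ (h3 _ (E.equivFin.symm j).2)

/-- More variables and more equations. -/
theorem pad (k A : Type) [Field k] [CommRing A] [Algebra k A] (B : Set k) (N m : ℕ)
    (f : Fin m → MvPolynomial (Fin N) k) (φ : MvPolynomial (Fin N) k →ₐ[k] A)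
    (hφ : Function.Surjective φ) (hker : RingHom.ker φ.toRingHom = Ideal.span (Set.range f))
    (hf : ∀ j, Sp B (f j)) (N' m' : ℕ) (hN : N ≤ N') (hm : m + (N' - N) ≤ m') :
    ∃ (f' : Fin m' → MvPolynomial (Fin N') k) (φ' : MvPolynomial (Fin N') k →ₐ[k] A),
      Function.Surjective φ' ∧ RingHom.ker φ'.toRingHom = Ideal.span (Set.range f') ∧
      ∀ j, Sp B (f' j) := by
  refine ⟨PAD.eqs k N N' m m' hN f, φ.comp (PAD.rho k N N'), ?_, ?_, ?_⟩
  · intro x
    obtain ⟨P, rfl⟩ := hφ x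
    exact ⟨MvPolynomial.rename (Fin.castLE hN) P, congrArg φ (PAD.rho_rename k N N' hN P)⟩
  · have hmem : ∀ P : MvPolynomial (Fin N) k, φ P = 0 ↔ P ∈ Ideal.span (Set.range f) := by
      intro P
      rw [← hker]
      rfl
    refine le_antisymm ?_ ?_
    · intro P hP
      have hP' : φ (PAD.rho k N N' P) = 0 := hP
      rw [hmem] at hP'
      have h1 : MvPolynomial.rename (Fin.castLE hN) (PAD.rho k N N' P) ∈
          Ideal.span (Set.range (PAD.eqs k N N' m m' hN f)) := by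
        have h2 := Ideal.mem_map_of_mem
          (MvPolynomial.rename (R := k) (Fin.castLE hN) : MvPolynomial (Fin N) k →ₐ[k]
            MvPolynomial (Fin N') k).toRingHom hP'
        rw [Ideal.map_span] at h2
        refine (Ideal.span_le.2 ?_) h2
        rintro _ ⟨_, ⟨j, rfl⟩, rfl⟩
        exact PAD.rename_mem k N N' m m' hN hm f j
      have h3 := Ideal.add_mem _ (PAD.sub_mem k N N' m m' hN hm f P) h1
      rwa [sub_add_cancel] at h3
    · rw [Ideal.span_le]
      rintro _ ⟨j, rfl⟩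
      change φ (PAD.rho k N N' (PAD.eqs k N N' m m' hN f j)) = 0
      unfold PAD.eqs
      split_ifs with h h'
      · rw [PAD.rho_rename, hmem]
        exact Ideal.subset_span ⟨_, rfl⟩
      · rw [PAD.rho_X_ge k N N' _ (by change ¬ (N + ((j : ℕ) - m) < N); omega), map_zero]
      · rw [map_zero, map_zero]
  · intro j
    unfold PAD.eqs
    split_ifs with h h'
    · exact Sp.rename B _ (Fin.castLE_injective hN) _ (hf _)
    · exact Sp.var B _
    · exact Sp.zero B

/-- The hypersurface `y ^ 2 - y = ∑ t_j f_j` is the one of a hypergraph polynomial. -/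
theorem cuv (k : Type) [Field k] (B : Set k) (a b n : ℕ) (hab : a + b = 3 * n)
    (f : Fin b → MvPolynomial (Fin a) k) (hf : ∀ j, Sp B (f j)) :
    ∃ (H : Finset (Finset (Fin (3 * n)))) (c : Fin (3 * n) → k), (∀ e ∈ H, e.card ≤ 3) ∧
      (∀ v, c v = 0 ∨ c v ∈ B) ∧
      Nonempty (Q (MvPolynomial (Fin (3 * n)) k) (hyp H c) ≃ₐ[k]
        VR (MvPolynomial (Fin a) k) f) := by
  let G : MvPolynomial (Fin b ⊕ Fin a) k :=
    ∑ j, MvPolynomial.X (Sum.inl j) * MvPolynomial.rename Sum.inr (f j)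
  have hS : MvPolynomial.sumAlgEquiv k (Fin b) (Fin a) G = lin f := by
    have hr : ∀ p : MvPolynomial (Fin a) k,
        MvPolynomial.sumAlgEquiv k (Fin b) (Fin a) (MvPolynomial.rename Sum.inr p) =
          MvPolynomial.C p := by
      intro p
      exact DFunLike.congr_fun (MvPolynomial.sumAlgEquiv_comp_rename_inr (R := k)
        (S₁ := Fin b) (S₂ := Fin a)) p
    simp only [G, lin, map_sum, map_mul, hr, MvPolynomial.sumAlgEquiv_X_inl]
  obtain ⟨H, c, h1, h2, h3⟩ := hyp_of_sp B (CUV.idx hab) f hf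
  refine ⟨H, c, h1, h2, ⟨CUV.Qequiv
    ((MvPolynomial.renameEquiv k (CUV.idx hab)).symm.trans
      (MvPolynomial.sumAlgEquiv k (Fin b) (Fin a))) ?_⟩⟩
  rw [← h3, ← hS, AlgEquiv.trans_apply]
  congr 1
  rw [AlgEquiv.symm_apply_eq]
  rfl

theorem core (hS : S_SMO) (hI : S_SMI) (hZ : S_ZPOL)
    (hR : S_RED.{v}) (k E : Type) [Field k] [Finite k] [Field E] [CharZero E]
    (B : Set k) (hB : Subring.closure B = ⊤)
    (T : ∀ i : ℕ, Homology.{v} k E i) (hT : Extra T) (i : ℕ) (A : Type) [CommRing A]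
    [Algebra k A] [Algebra.FiniteType k A] :
    ∃ (n : ℕ) (H : Finset (Finset (Fin (3 * n)))) (c : Fin (3 * n) → k),
      (∀ e ∈ H, e.card ≤ 3) ∧ (∀ v, c v = 0 ∨ c v ∈ B) ∧ Smooth (cubic (hyp H c)).f ∧
      ((T (2 * n)).Inj (cubic (hyp H c)) → (T i).Inj (aff k A)) ∧
      ((T (2 * n)).Surj (cubic (hyp H c)) → (T i).Surj (aff k A)) := by
  obtain ⟨N, m, f, φ, hφ, hk, hd⟩ := quad k A B hB (Set.toFinite B)
  obtain ⟨f', φ', hφ', hk', hd'⟩ := pad k A B N m f φ hφ hk hd (N + m + 3 * i + 1)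
    (2 * N + 2 * m + 3 * i + 1 + 1) (by omega) (by omega)
  obtain ⟨H, c, h1, h0, ⟨e⟩⟩ := cuv k B (N + m + 3 * i + 1) (2 * N + 2 * m + 3 * i + 1 + 1)
    (N + m + 2 * i + 1) (by omega) f' hd'
  have h2 : 2 * (N + m + 2 * i + 1) = i + (2 * N + 2 * m + 3 * i + 1 + 1) := by omega
  have hs : Smooth (cubic (hyp H c)).f := hI k _ _ e.symm (hS k _ _ f')
  obtain ⟨r1, r2⟩ := hR k E T hT (MvPolynomial (Fin (N + m + 3 * i + 1)) k) A
    (2 * N + 2 * m + 3 * i + 1) i f' φ' hφ' hk'
    (fun z => hZ k E (N + m + 3 * i + 1) i (by omega) z)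
  refine ⟨N + m + 2 * i + 1, H, c, h1, h0, hs, fun h => r1 ?_, fun h => r2 ?_⟩
  · rw [h2] at h
    exact (inj_viso (T _) (viso e)).mpr h
  · rw [h2] at h
    exact (surj_viso T _ (viso e)).mpr h

end HG

/-- From smooth hypersurfaces given by hypergraphs to all affine varieties. -/
def S_MAINH : Prop := ∀ (k E : Type) [Field k] [Finite k] [Field E] [CharZero E]
  (B : Set k), Subring.closure B = ⊤ → ∀ (T : ∀ i : ℕ, Homology.{v} k E i), Extra T →
  ((∀ (n : ℕ) (H : Finset (Finset (Fin (3 * n)))) (c : Fin (3 * n) → k), (∀ e ∈ H, e.card ≤ 3) →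
    (∀ v, c v = 0 ∨ c v ∈ B) → Smooth (cubic (hyp H c)).f →
    (T (2 * n)).Inj (cubic (hyp H c))) → ∀ (i : ℕ) (X : Var k), IsAffine X.X → (T i).Inj X) ∧
  ((∀ (n : ℕ) (H : Finset (Finset (Fin (3 * n)))) (c : Fin (3 * n) → k), (∀ e ∈ H, e.card ≤ 3) →
    (∀ v, c v = 0 ∨ c v ∈ B) → Smooth (cubic (hyp H c)).f →
    (T (2 * n)).Surj (cubic (hyp H c))) → ∀ (i : ℕ) (X : Var k), IsAffine X.X → (T i).Surj X)

theorem t_MAINH : S_SMO → S_SMI → S_ZPOL → S_RED.{v} → S_MAINH.{v} := by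
  intro hS hI hZ hR k E _ _ _ _ B hB T hT
  constructor
  · intro h i X hX
    obtain ⟨A, _, _, _, ⟨s⟩⟩ := exists_aff X
    obtain ⟨n, H, c, h1, h2, h3, h4, -⟩ := HG.core hS hI hZ hR k E B hB T hT i A
    exact (inj_viso (T i) s).mp (h4 (h n H c h1 h2 h3))
  · intro h i X hX
    obtain ⟨A, _, _, _, ⟨s⟩⟩ := exists_aff X
    obtain ⟨n, H, c, h1, h2, h3, -, h4⟩ := HG.core hS hI hZ hR k E B hB T hT i A
    exact (surj_viso T i s).mp (h4 (h n H c h1 h2 h3))

end CUB
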