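import Pool.Agent.CUBH.Sp

/-!
# CUBH: every algebra of finite type over a finite field is defined by squarefree equations of
degree at most two with coefficients one
-/

set_option autoImplicit false

namespace CUB

namespace HG

open MvPolynomial

section Closed

variable {k : Type} [Field k] (B : Set k) (n : ℕ)

/-- The values `v p`, `p ∈ S`, satisfy the relations of the three types. -/
structure Rel (S : Finset (MvPolynomial (Fin n) k)) {R : Type} [CommRing R] [Algebra k R]
    (v : MvPolynomial (Fin n) k → R) : Prop where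
  zero : 0 ∈ S → v 0 = 0
  neg : ∀ p ∈ S, -p ∈ S → v (-p) = -v p
  add : ∀ p ∈ S, ∀ q ∈ S, ∀ r ∈ S, p + q + r = 0 → v p + v q + v r = 0
  mul : ∀ p ∈ S, ∀ q ∈ S, ∀ r ∈ S, p * q + r = 0 → v p * v q + v r = 0
  one : -1 ∈ S → v (-1) = -1
  const : ∀ b ∈ B, -C b ∈ S → v (-C b) = -algebraMap k R b

variable {B n}

lemma Rel.mono {S S' : Finset (MvPolynomial (Fin n) k)} (h : S ⊆ S') {R : Type} [CommRing R]
    [Algebra k R] {v : MvPolynomial (Fin n) k → R} (hv : Rel B n S' v) : Rel B n S v where
  zero h0 := hv.zero (h h0)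
  neg p hp hp' := hv.neg p (h hp) (h hp')
  add p hp q hq r hr e := hv.add p (h hp) q (h hq) r (h hr) e
  mul p hp q hq r hr e := hv.mul p (h hp) q (h hq) r (h hr) e
  one h1 := hv.one (h h1)
  const b hb hb' := hv.const b hb (h hb')

variable (B n)

/-- `S` is closed: the relations and the values of the variables determine all values. -/
def Closed (S : Finset (MvPolynomial (Fin n) k)) : Prop :=
  ∀ (R : Type) [CommRing R] [Algebra k R] (v : MvPolynomial (Fin n) k → R), Rel B n S v →
    ∀ ψ : MvPolynomial (Fin n) k →ₐ[k] R, (∀ i, X i ∈ S → ψ (X i) = v (X i)) →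
      ∀ p ∈ S, ψ p = v p

variable {B n}

open Classical in
lemma Closed.union {S S' : Finset (MvPolynomial (Fin n) k)} (h : Closed B n S)
    (h' : Closed B n S') : Closed B n (S ∪ S') := by
  intro R _ _ v hv ψ hψ p hp
  rcases Finset.mem_union.1 hp with hp | hp
  · exact h R v (hv.mono Finset.subset_union_left) ψ
      (fun i hi => hψ i (Finset.mem_union_left _ hi)) p hp
  · exact h' R v (hv.mono Finset.subset_union_right) ψ
      (fun i hi => hψ i (Finset.mem_union_right _ hi)) p hp

lemma closed_empty : Closed B n (∅ : Finset (MvPolynomial (Fin n) k)) := by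
  intro R _ _ v _ ψ _ p hp
  simp at hp

open Classical in
lemma Closed.biUnion {α : Type} (I : Finset α) (S : α → Finset (MvPolynomial (Fin n) k))
    (h : ∀ i, Closed B n (S i)) : Closed B n (I.biUnion S) := by
  induction I using Finset.induction_on with
  | empty => simpa using closed_empty
  | insert a I ha ih => rw [Finset.biUnion_insert]; exact (h a).union ih

open Classical in
lemma Closed.neg {S : Finset (MvPolynomial (Fin n) k)} (h : Closed B n S) :
    Closed B n (S ∪ S.image fun p => -p) := by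
  intro R _ _ v hv ψ hψ p hp
  have h1 : ∀ q ∈ S, ψ q = v q := h R v (hv.mono Finset.subset_union_left) ψ
      (fun i hi => hψ i (Finset.mem_union_left _ hi))
  rcases Finset.mem_union.1 hp with hp | hp
  · exact h1 p hp
  · obtain ⟨q, hq, rfl⟩ := Finset.mem_image.1 hp
    rw [hv.neg q (Finset.mem_union_left _ hq)
      (Finset.mem_union_right _ (Finset.mem_image.2 ⟨q, hq, rfl⟩)), map_neg, h1 q hq]

variable (B n)

/-- The polynomials which lie in a closed set. -/
def W : Set (MvPolynomial (Fin n) k) := {p | ∃ S, Closed B n S ∧ p ∈ S}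

variable {B n}

lemma W_zero : (0 : MvPolynomial (Fin n) k) ∈ W B n := by
  refine ⟨{0}, ?_, Finset.mem_singleton_self _⟩
  intro R _ _ v hv ψ _ p hp
  rw [Finset.mem_singleton.1 hp, map_zero, hv.zero (Finset.mem_singleton_self _)]

lemma W_neg {p : MvPolynomial (Fin n) k} (hp : p ∈ W B n) : -p ∈ W B n := by
  classical
  obtain ⟨S, hS, hpS⟩ := hp
  exact ⟨_, hS.neg, Finset.mem_union_right _ (Finset.mem_image.2 ⟨p, hpS, rfl⟩)⟩

lemma W_one : (1 : MvPolynomial (Fin n) k) ∈ W B n := by
  have h : (-1 : MvPolynomial (Fin n) k) ∈ W B n := by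
    refine ⟨{-1}, ?_, Finset.mem_singleton_self _⟩
    intro R _ _ v hv ψ _ p hp
    rw [Finset.mem_singleton.1 hp, map_neg, map_one, hv.one (Finset.mem_singleton_self _)]
  simpa using W_neg h

lemma W_const {b : k} (hb : b ∈ B) : (C b : MvPolynomial (Fin n) k) ∈ W B n := by
  have h : (-C b : MvPolynomial (Fin n) k) ∈ W B n := by
    refine ⟨{-C b}, ?_, Finset.mem_singleton_self _⟩
    intro R _ _ v hv ψ _ p hp
    rw [Finset.mem_singleton.1 hp, map_neg, hv.const b hb (Finset.mem_singleton_self _),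
      ← algebraMap_eq, AlgHom.commutes]
  simpa using W_neg h

lemma W_X (i : Fin n) : (X i : MvPolynomial (Fin n) k) ∈ W B n := by
  refine ⟨{X i}, ?_, Finset.mem_singleton_self _⟩
  intro R _ _ v hv ψ hψ p hp
  rw [Finset.mem_singleton.1 hp]
  exact hψ i (Finset.mem_singleton_self _)

lemma W_add {p q : MvPolynomial (Fin n) k} (hp : p ∈ W B n) (hq : q ∈ W B n) :
    p + q ∈ W B n := by
  classical
  obtain ⟨S, hS, hpS⟩ := hp
  obtain ⟨S', hS', hqS⟩ := hq
  refine ⟨(S ∪ S') ∪ {p + q, -(p + q)}, ?_, Finset.mem_union_right _ (by simp)⟩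
  intro R _ _ v hv ψ hψ r hr
  have h1 : ∀ s ∈ S ∪ S', ψ s = v s := (hS.union hS') R v (hv.mono Finset.subset_union_left) ψ
      (fun i hi => hψ i (Finset.mem_union_left _ hi))
  have hp1 : p ∈ (S ∪ S') ∪ {p + q, -(p + q)} :=
    Finset.mem_union_left _ (Finset.mem_union_left _ hpS)
  have hq1 : q ∈ (S ∪ S') ∪ {p + q, -(p + q)} :=
    Finset.mem_union_left _ (Finset.mem_union_right _ hqS)
  have ha : p + q ∈ (S ∪ S') ∪ {p + q, -(p + q)} := Finset.mem_union_right _ (by simp)
  have hb : -(p + q) ∈ (S ∪ S') ∪ {p + q, -(p + q)} := Finset.mem_union_right _ (by simp)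
  have h2 := hv.add p hp1 q hq1 _ hb (add_neg_cancel _)
  have h3 := hv.neg _ ha hb
  have h4 : ψ (p + q) = v (p + q) := by
    rw [map_add, h1 p (Finset.mem_union_left _ hpS), h1 q (Finset.mem_union_right _ hqS)]
    rw [h3] at h2
    exact add_neg_eq_zero.1 h2
  rcases Finset.mem_union.1 hr with hr | hr
  · exact h1 r hr
  · rw [Finset.mem_insert, Finset.mem_singleton] at hr
    rcases hr with rfl | rfl
    · exact h4
    · rw [h3, map_neg, h4]

lemma W_mul {p q : MvPolynomial (Fin n) k} (hp : p ∈ W B n) (hq : q ∈ W B n) :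
    p * q ∈ W B n := by
  classical
  obtain ⟨S, hS, hpS⟩ := hp
  obtain ⟨S', hS', hqS⟩ := hq
  refine ⟨(S ∪ S') ∪ {p * q, -(p * q)}, ?_, Finset.mem_union_right _ (by simp)⟩
  intro R _ _ v hv ψ hψ r hr
  have h1 : ∀ s ∈ S ∪ S', ψ s = v s := (hS.union hS') R v (hv.mono Finset.subset_union_left) ψ
      (fun i hi => hψ i (Finset.mem_union_left _ hi))
  have hp1 : p ∈ (S ∪ S') ∪ {p * q, -(p * q)} :=
    Finset.mem_union_left _ (Finset.mem_union_left _ hpS)
  have hq1 : q ∈ (S ∪ S') ∪ {p * q, -(p * q)} :=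
    Finset.mem_union_left _ (Finset.mem_union_right _ hqS)
  have ha : p * q ∈ (S ∪ S') ∪ {p * q, -(p * q)} := Finset.mem_union_right _ (by simp)
  have hb : -(p * q) ∈ (S ∪ S') ∪ {p * q, -(p * q)} := Finset.mem_union_right _ (by simp)
  have h2 := hv.mul p hp1 q hq1 _ hb (add_neg_cancel _)
  have h3 := hv.neg _ ha hb
  have h4 : ψ (p * q) = v (p * q) := by
    rw [map_mul, h1 p (Finset.mem_union_left _ hpS), h1 q (Finset.mem_union_right _ hqS)]
    rw [h3] at h2
    exact add_neg_eq_zero.1 h2
  rcases Finset.mem_union.1 hr with hr | hr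
  · exact h1 r hr
  · rw [Finset.mem_insert, Finset.mem_singleton] at hr
    rcases hr with rfl | rfl
    · exact h4
    · rw [h3, map_neg, h4]

lemma mem_W (hB : Subring.closure B = ⊤) (p : MvPolynomial (Fin n) k) : p ∈ W B n := by
  induction p using MvPolynomial.induction_on with
  | C a =>
    have ha : a ∈ Subring.closure B := by rw [hB]; exact Subring.mem_top a
    induction ha using Subring.closure_induction with
    | mem x hx => exact W_const hx
    | zero => rw [C_0]; exact W_zero
    | one => rw [C_1]; exact W_one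
    | add x y _ _ hx hy => rw [C_add]; exact W_add hx hy
    | neg x _ hx => rw [C_neg]; exact W_neg hx
    | mul x y _ _ hx hy => rw [C_mul]; exact W_mul hx hy
  | add p q hp hq => exact W_add hp hq
  | mul_X p i hp => exact W_mul hp (W_X i)

end Closed

end HG

end CUB
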