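import Pool.Agent.CUBH.Defs

/-!
# CUBH: squarefree equations of degree at most two
-/

set_option autoImplicit false

namespace CUB

namespace HG

open MvPolynomial

variable {k : Type} [Field k] {ι κ : Type}

/-- `f` is a sum of distinct squarefree monomials of degree at most two, plus a constant which is
zero or an element of `B`. -/
def Sp (B : Set k) (f : MvPolynomial ι k) : Prop :=
  ∃ (H : Finset (Finset ι)) (b : k), (∀ e ∈ H, e.card ≤ 2) ∧ (b = 0 ∨ b ∈ B) ∧
    f = ∑ e ∈ H, ∏ v ∈ e, X v + C b

lemma Sp.zero (B : Set k) : Sp B (0 : MvPolynomial ι k) :=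
  ⟨∅, 0, by simp, Or.inl rfl, by simp⟩

lemma Sp.var (B : Set k) (v : ι) : Sp B (X v : MvPolynomial ι k) :=
  ⟨{{v}}, 0, by simp, Or.inl rfl, by simp⟩

lemma Sp.varC (B : Set k) (v : ι) (b : k) (hb : b ∈ B) :
    Sp B (X v + C b : MvPolynomial ι k) :=
  ⟨{{v}}, b, by simp, Or.inr hb, by simp⟩

lemma Sp.varOne (B : Set k) (v : ι) : Sp B (X v + 1 : MvPolynomial ι k) := by
  classical
  refine ⟨{{v}, ∅}, 0, ?_, Or.inl rfl, ?_⟩
  · intro e he
    rw [Finset.mem_insert, Finset.mem_singleton] at he
    rcases he with rfl | rfl <;> simp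
  · rw [Finset.sum_pair (Finset.singleton_ne_empty v)]
    simp

lemma Sp.mulAdd (B : Set k) (u v w : ι) (huv : u ≠ v) :
    Sp B (X u * X v + X w : MvPolynomial ι k) := by
  classical
  refine ⟨{{u, v}, {w}}, 0, ?_, Or.inl rfl, ?_⟩
  · intro e he
    rw [Finset.mem_insert, Finset.mem_singleton] at he
    rcases he with rfl | rfl
    · rw [Finset.card_pair huv]
    · simp
  · have h : ({u, v} : Finset ι) ≠ {w} := by
      intro h
      have h1 := congrArg Finset.card h
      rw [Finset.card_pair huv, Finset.card_singleton] at h1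
      omega
    rw [Finset.sum_pair h, Finset.prod_pair huv]
    simp

lemma Sp.sum (B : Set k) {α : Type} (I : Finset α) (g : α → ι) (hg : Function.Injective g) :
    Sp B (∑ i ∈ I, X (g i) : MvPolynomial ι k) := by
  classical
  refine ⟨I.image fun i => {g i}, 0, ?_, Or.inl rfl, ?_⟩
  · intro e he
    obtain ⟨i, -, rfl⟩ := Finset.mem_image.1 he
    simp
  · rw [Finset.sum_image]
    · simp
    · intro i _ j _ h
      exact hg (Finset.singleton_injective h)

lemma Sp.rename (B : Set k) (j : ι → κ) (hj : Function.Injective j) (f : MvPolynomial ι k)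
    (hf : Sp B f) : Sp B (MvPolynomial.rename j f) := by
  classical
  obtain ⟨H, b, h1, h2, rfl⟩ := hf
  refine ⟨H.image (Finset.image j), b, ?_, h2, ?_⟩
  · intro e he
    obtain ⟨e', he', rfl⟩ := Finset.mem_image.1 he
    exact Finset.card_image_le.trans (h1 e' he')
  · rw [map_add, map_sum, rename_C, Finset.sum_image]
    · congr 1
      refine Finset.sum_congr rfl fun e _ => ?_
      rw [map_prod, Finset.prod_image (fun x _ y _ h => hj h)]
      refine Finset.prod_congr rfl fun v _ => ?_
      rw [rename_X]
    · intro e _ e' _ h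
      exact Finset.image_injective hj h

/-- The cubic polynomial `∑ t_j f_j`. -/
lemma hyp_of_sp (B : Set k) {a b n : ℕ} (r : Fin b ⊕ Fin a ≃ Fin n)
    (f : Fin b → MvPolynomial (Fin a) k) (hf : ∀ j, Sp B (f j)) :
    ∃ (H : Finset (Finset (Fin n))) (c : Fin n → k), (∀ e ∈ H, e.card ≤ 3) ∧
      (∀ v, c v = 0 ∨ c v ∈ B) ∧
      MvPolynomial.rename r (∑ j, X (Sum.inl j) * MvPolynomial.rename Sum.inr (f j) :
        MvPolynomial (Fin b ⊕ Fin a) k) = hyp H c := by
  classical
  choose H c h1 h2 h3 using hf
  have hinr : Function.Injective (fun v : Fin a => r (Sum.inr v)) := fun x y h =>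
    Sum.inr_injective (r.injective h)
  let ed : Fin b → Finset (Fin a) → Finset (Fin n) := fun j e =>
    insert (r (Sum.inl j)) (e.image fun v => r (Sum.inr v))
  have hnot : ∀ j j' (e : Finset (Fin a)), r (Sum.inl j) ∈ ed j' e → j = j' := by
    intro j j' e h
    rcases Finset.mem_insert.1 h with h | h
    · exact Sum.inl_injective (r.injective h)
    · obtain ⟨v, -, hv⟩ := Finset.mem_image.1 h
      exact absurd (r.injective hv) (by simp)
  have hni : ∀ j (e : Finset (Fin a)), r (Sum.inl j) ∉ e.image fun v => r (Sum.inr v) := by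
    intro j e h
    obtain ⟨v, -, hv⟩ := Finset.mem_image.1 h
    exact absurd (r.injective hv) (by simp)
  have hinj : ∀ j, Function.Injective (ed j) := by
    intro j e e' h
    have h4 : (ed j e).erase (r (Sum.inl j)) = (ed j e').erase (r (Sum.inl j)) := by rw [h]
    simp only [ed] at h4
    rw [Finset.erase_insert (hni j e), Finset.erase_insert (hni j e')] at h4
    exact Finset.image_injective hinr h4
  refine ⟨Finset.univ.biUnion fun j => (H j).image (ed j),
    fun v => Sum.elim c (fun _ => 0) (r.symm v), ?_, ?_, ?_⟩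
  · intro e he
    obtain ⟨j, -, he⟩ := Finset.mem_biUnion.1 he
    obtain ⟨e', he', rfl⟩ := Finset.mem_image.1 he
    have h4 := Finset.card_insert_le (r (Sum.inl j)) (e'.image fun v => r (Sum.inr v))
    have h5 : (e'.image fun v => r (Sum.inr v)).card ≤ e'.card := Finset.card_image_le
    have h6 := h1 j e' he'
    change (insert (r (Sum.inl j)) (e'.image fun v => r (Sum.inr v))).card ≤ 3
    omega
  · intro v
    rcases h : r.symm v with j | j
    · simpa [h] using h2 j
    · simp [h]
  · have hlin : ∑ v, C (Sum.elim c (fun _ => (0 : k)) (r.symm v)) * (X v : MvPolynomial (Fin n) k) =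
        ∑ j, C (c j) * X (r (Sum.inl j)) := by
      rw [← r.sum_comp]
      rw [Fintype.sum_sum_type]
      simp
    unfold hyp
    rw [hlin, Finset.sum_biUnion, ← Finset.sum_add_distrib, map_sum]
    · refine Finset.sum_congr rfl fun j _ => ?_
      rw [Finset.sum_image fun x _ y _ h => hinj j h]
      rw [map_mul, rename_X, h3 j, map_add, map_sum, rename_C, map_add, map_sum, rename_C, mul_add,
        Finset.mul_sum, mul_comm (X (r (Sum.inl j))) (C (c j))]
      congr 1
      refine Finset.sum_congr rfl fun e _ => ?_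
      change _ = ∏ v ∈ insert (r (Sum.inl j)) (e.image fun v => r (Sum.inr v)), X v
      rw [Finset.prod_insert (hni j e), Finset.prod_image fun x _ y _ h => hinr h, map_prod,
        map_prod]
      congr 1
      refine Finset.prod_congr rfl fun v _ => ?_
      rw [rename_X, rename_X]
    · intro j _ j' _ hjj
      rw [Function.onFun, Finset.disjoint_left]
      intro e he he'
      obtain ⟨e1, -, rfl⟩ := Finset.mem_image.1 he
      obtain ⟨e2, -, h4⟩ := Finset.mem_image.1 he'
      refine hjj (hnot j j' e2 ?_)
      rw [h4]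
      exact Finset.mem_insert_self _ _

lemma hyp_totalDegree {N : ℕ} (H : Finset (Finset (Fin N))) (c : Fin N → k)
    (h : ∀ e ∈ H, e.card ≤ 3) : (hyp H c).totalDegree ≤ 3 := by
  unfold hyp
  refine (totalDegree_add _ _).trans (max_le ?_ ?_)
  · refine totalDegree_finsetSum_le fun e he => ?_
    refine (totalDegree_finsetProd _ _).trans ?_
    refine (Finset.sum_le_card_nsmul e _ 1 fun v _ => ?_).trans ?_
    · exact (totalDegree_X v).le
    · simpa using h e he
  · refine totalDegree_finsetSum_le fun v _ => ?_
    refine (totalDegree_mul _ _).trans ?_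
    rw [totalDegree_C, totalDegree_X]
    norm_num

end HG

end CUB
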