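import Pool.Agent.CUBH.Gen3

/-!
# CUBH: every variable in at most three monomials

A variable which occurs in many equations is replaced by a chain of copies with alternating signs.
-/

set_option autoImplicit false

namespace CUB

namespace HG

open MvPolynomial

/-- A presentation by squarefree equations with at most three disjoint monomials. -/
def Raw (k A : Type) [Field k] [CommRing A] [Algebra k A] (B : Set k) (ι κ : Type) : Prop :=
  ∃ (f : κ → MvPolynomial ι k) (φ : MvPolynomial ι k →ₐ[k] A) (H : κ → Finset (Finset ι))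
    (b : κ → k), Function.Surjective φ ∧
    RingHom.ker φ.toRingHom = Ideal.span (Set.range f) ∧ ∀ x, Sp3 B (H x) (b x) (f x)

/-- Moreover every variable occurs in at most three monomials. -/
def Good (k A : Type) [Field k] [CommRing A] [Algebra k A] (B : Set k) (ι κ : Type)
    [Fintype κ] : Prop :=
  ∃ (f : κ → MvPolynomial ι k) (φ : MvPolynomial ι k →ₐ[k] A) (H : κ → Finset (Finset ι))
    (b : κ → k), Function.Surjective φ ∧
    RingHom.ker φ.toRingHom = Ideal.span (Set.range f) ∧ (∀ x, Sp3 B (H x) (b x) (f x)) ∧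
    ∀ w, ∑ x, cnt (H x) w ≤ 3

theorem exists_raw (k A : Type) [Field k] [CommRing A] [Algebra k A] [Algebra.FiniteType k A]
    (B : Set k) (hB : Subring.closure B = ⊤) (hfin : B.Finite) :
    ∃ (ι : Type) (_ : Finite ι) (_ : Nonempty ι) (m : ℕ), Raw k A B ι (Fin m) := by
  classical
  obtain ⟨ι, h1, h2, E, φ, hφ, hk, hE⟩ := general3 (k := k) (A := A) B hB hfin
  have hE' : ∀ j : Fin E.card, SP B (E.equivFin.symm j).1 := fun j =>
    hE _ (E.equivFin.symm j).2
  choose H b hH using hE'
  refine ⟨ι, h1, h2, E.card, fun j => (E.equivFin.symm j).1, φ, H, b, hφ, ?_, hH⟩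
  have hr : (Set.range fun j : Fin E.card => ((E.equivFin.symm j).1 : MvPolynomial ι k)) = E := by
    ext x
    constructor
    · rintro ⟨j, rfl⟩
      exact (E.equivFin.symm j).2
    · intro hx
      exact ⟨E.equivFin ⟨x, hx⟩, by simp⟩
  rw [hr, hk]

section Unfold

variable {k : Type} [Field k] {ι : Type} {m : ℕ} (M : ℕ) (hM : m ≤ M)

/-- The copy of the variable which is used in the equation `j`. -/
def em (j : Fin m) (v : ι) : ι × Fin (2 * M + 1) := (v, ⟨2 * j, by omega⟩)

/-- The new equations. -/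
noncomputable def ueq (f : Fin m → MvPolynomial ι k) :
    Fin m ⊕ (ι × Fin (2 * M)) → MvPolynomial (ι × Fin (2 * M + 1)) k
  | Sum.inl j => MvPolynomial.rename (em M hM j) (f j)
  | Sum.inr z => X (z.1, z.2.castSucc) + X (z.1, z.2.succ)

open Classical in
/-- The new sets of monomials. -/
noncomputable def uH (H : Fin m → Finset (Finset ι)) :
    Fin m ⊕ (ι × Fin (2 * M)) → Finset (Finset (ι × Fin (2 * M + 1)))
  | Sum.inl j => im (em M hM j) (H j)
  | Sum.inr z => {{(z.1, z.2.castSucc)}, {(z.1, z.2.succ)}}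

/-- The alternating identification of the copies. -/
noncomputable def rho : MvPolynomial (ι × Fin (2 * M + 1)) k →ₐ[k] MvPolynomial ι k :=
  aeval fun a => (-1) ^ (a.2 : ℕ) * X a.1

lemma rho_X (a : ι × Fin (2 * M + 1)) :
    rho (k := k) M (X a) = (-1) ^ (a.2 : ℕ) * X a.1 := by
  rw [rho, aeval_X]

lemma rho_em (j : Fin m) (p : MvPolynomial ι k) :
    rho M (MvPolynomial.rename (em M hM j) p) = p := by
  have h : ((rho (k := k) (ι := ι) M).comp (MvPolynomial.rename (em M hM j))) =
      AlgHom.id k _ := by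
    refine MvPolynomial.algHom_ext fun v => ?_
    rw [AlgHom.comp_apply, rename_X, rho_X]
    change (-1 : MvPolynomial ι k) ^ (2 * (j : ℕ)) * X v = X v
    rw [pow_mul, neg_one_sq, one_pow, one_mul]
  exact DFunLike.congr_fun h p

lemma Sp3.pair (B : Set k) {κ : Type} (u v : κ) (huv : u ≠ v) [DecidableEq κ] :
    Sp3 B {{u}, {v}} 0 (X u + X v : MvPolynomial κ k) := by
  refine ⟨?_, (Finset.card_le_two).trans (by norm_num), ?_, Or.inl rfl, ?_⟩
  · intro e he
    rw [Finset.mem_insert, Finset.mem_singleton] at he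
    rcases he with rfl | rfl <;> simp
  · intro e he e' he' x hx hx'
    rw [Finset.mem_insert, Finset.mem_singleton] at he he'
    rcases he with rfl | rfl <;> rcases he' with rfl | rfl <;>
      rw [Finset.mem_singleton] at hx hx'
    · exact absurd (hx.symm.trans hx') huv
    · exact absurd (hx'.symm.trans hx) huv
  · have h : ({u} : Finset κ) ≠ {v} := fun h => huv (Finset.singleton_injective h)
    rw [Finset.sum_pair h]
    simp

lemma ne_succ {N : ℕ} (v : ι) (l : Fin N) : (v, l.castSucc) ≠ (v, l.succ) := by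
  intro h
  have h1 := congrArg (fun z : ι × Fin (N + 1) => (z.2 : ℕ)) h
  simp at h1

lemma uH_sp (B : Set k) (f : Fin m → MvPolynomial ι k) (H : Fin m → Finset (Finset ι))
    (b : Fin m → k) (hf : ∀ j, Sp3 B (H j) (b j) (f j)) (x : Fin m ⊕ (ι × Fin (2 * M))) :
    Sp3 B (uH M hM H x) (Sum.elim b (fun _ => 0) x) (ueq M hM f x) := by
  classical
  rcases x with j | z
  · refine (hf j).rename (em M hM j) fun u v h => ?_
    exact congrArg Prod.fst h
  · have h := Sp3.pair B (z.1, z.2.castSucc) (z.1, z.2.succ) (ne_succ z.1 z.2)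
    simp only [uH, ueq, Sum.elim_inr]
    convert h

lemma sum_ind {α β : Type} [Fintype α] [DecidableEq β] (g : α → β)
    (hg : Function.Injective g) (w : β) : ∑ a, (if g a = w then 1 else 0) ≤ 1 := by
  classical
  rw [Finset.sum_boole]
  norm_cast
  rw [Finset.card_le_one]
  intro a ha a' ha'
  rw [Finset.mem_filter] at ha ha'
  exact hg (ha.2.trans ha'.2.symm)

lemma cnt_pair {κ : Type} [DecidableEq κ] (u v w : κ) :
    cnt ({{u}, {v}} : Finset (Finset κ)) w ≤
      (if u = w then 1 else 0) + (if v = w then 1 else 0) := by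
  classical
  unfold cnt
  have h1 : ({{u}, {v}} : Finset (Finset κ)) = insert {u} {{v}} := rfl
  have h2 : ∀ S : Finset (Finset κ), (S.filter fun e => w ∈ e).card =
      (S.filter fun e => w ∈ e).card := fun _ => rfl
  rw [Finset.filter_insert, Finset.filter_singleton]
  by_cases hu : u = w
  · by_cases hv : v = w
    · simp only [hu, hv, Finset.mem_singleton, if_true]
      exact Finset.card_le_two
    · simp [hu, hv, Ne.symm hv]
  · by_cases hv : v = w
    · simp [hu, hv, Ne.symm hu]
    · simp [hu, hv, Ne.symm hu, Ne.symm hv]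

lemma uH_cnt [Finite ι] (B : Set k) (f : Fin m → MvPolynomial ι k)
    (H : Fin m → Finset (Finset ι))
    (b : Fin m → k) (hf : ∀ j, Sp3 B (H j) (b j) (f j)) [Fintype ι]
    (w : ι × Fin (2 * M + 1)) : ∑ x, cnt (uH M hM H x) w ≤ 3 := by
  classical
  rw [Fintype.sum_sum_type]
  have h1 : ∑ j : Fin m, cnt (uH M hM H (Sum.inl j)) w ≤ 1 := by
    refine le_trans (Finset.sum_le_sum fun j _ => ?_)
      (sum_ind (fun j : Fin m => 2 * (j : ℕ)) (fun i j h => Fin.ext (by simpa using h))
        (w.2 : ℕ))
    by_cases h : 2 * (j : ℕ) = w.2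
    · rw [if_pos h]
      exact (uH_sp M hM B f H b hf (Sum.inl j)).cnt_le w
    · rw [if_neg h]
      refine le_of_eq (cnt_im_of_not _ _ _ ?_)
      rintro ⟨v, hv⟩
      exact h (congrArg (fun z : ι × Fin (2 * M + 1) => (z.2 : ℕ)) hv)
  have h2 : ∑ z : ι × Fin (2 * M), cnt (uH M hM H (Sum.inr z)) w ≤ 2 := by
    have h3 : ∀ z : ι × Fin (2 * M), cnt (uH M hM H (Sum.inr z)) w ≤
        (if (z.1, z.2.castSucc) = w then 1 else 0) + (if (z.1, z.2.succ) = w then 1 else 0) := by
      intro z
      refine le_trans (le_of_eq ?_) (cnt_pair (z.1, z.2.castSucc) (z.1, z.2.succ) w)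
      simp only [uH]
    refine (Finset.sum_le_sum fun z _ => h3 z).trans ?_
    rw [Finset.sum_add_distrib]
    have h4 := sum_ind (fun z : ι × Fin (2 * M) => (z.1, z.2.castSucc)) (fun z z' h => by
      have h5 := congrArg Prod.fst h
      have h6 := congrArg Prod.snd h
      exact Prod.ext h5 (Fin.castSucc_injective _ h6)) w
    have h5 := sum_ind (fun z : ι × Fin (2 * M) => (z.1, z.2.succ)) (fun z z' h => by
      have h5 := congrArg Prod.fst h
      have h6 := congrArg Prod.snd h
      exact Prod.ext h5 (Fin.succ_injective _ h6)) w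
    omega
  omega

end Unfold

theorem unfold_good (k A : Type) [Field k] [CommRing A] [Algebra k A] (B : Set k) (ι : Type)
    [Fintype ι] (m M : ℕ) (hM : m ≤ M) (h : Raw k A B ι (Fin m)) :
    Good k A B (ι × Fin (2 * M + 1)) (Fin m ⊕ (ι × Fin (2 * M))) := by
  classical
  obtain ⟨f, φ, H, b, hφ, hk, hf⟩ := h
  refine ⟨ueq M hM f, φ.comp (rho M), uH M hM H, Sum.elim b fun _ => 0, ?_, ?_,
    uH_sp M hM B f H b hf, uH_cnt M hM B f H b hf⟩
  · intro a
    obtain ⟨P, rfl⟩ := hφ a
    refine ⟨MvPolynomial.rename (fun v => (v, 0)) P, ?_⟩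
    rw [AlgHom.comp_apply]
    congr 1
    have h1 : ((rho (k := k) (ι := ι) M).comp (MvPolynomial.rename fun v => (v, 0))) =
        AlgHom.id k _ := by
      refine MvPolynomial.algHom_ext fun v => ?_
      rw [AlgHom.comp_apply, rename_X, rho_X]
      change (-1 : MvPolynomial ι k) ^ ((0 : Fin (2 * M + 1)) : ℕ) * X v = X v
      rw [Fin.val_zero, pow_zero, one_mul]
    exact DFunLike.congr_fun h1 P
  · let J : Ideal (MvPolynomial (ι × Fin (2 * M + 1)) k) := Ideal.span (Set.range (ueq M hM f))
    let q : MvPolynomial (ι × Fin (2 * M + 1)) k →ₐ[k]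
      (MvPolynomial (ι × Fin (2 * M + 1)) k ⧸ J) := Ideal.Quotient.mkₐ k J
    have hq0 : ∀ x, q (ueq M hM f x) = 0 := fun x =>
      Ideal.Quotient.eq_zero_iff_mem.2 (Ideal.subset_span ⟨x, rfl⟩)
    have hX : ∀ (v : ι) (l : Fin (2 * M + 1)), q (X (v, l)) = (-1) ^ (l : ℕ) * q (X (v, 0)) := by
      intro v l
      induction l using Fin.induction with
      | zero => simp
      | succ l ih =>
        have h1 := hq0 (Sum.inr (v, l))
        change q (X (v, l.castSucc) + X (v, l.succ)) = 0 at h1
        rw [map_add, ih] at h1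
        rw [eq_neg_of_add_eq_zero_right h1, Fin.val_succ, Fin.val_castSucc, pow_succ]
        ring
    let σ : MvPolynomial ι k →ₐ[k] MvPolynomial (ι × Fin (2 * M + 1)) k :=
      MvPolynomial.rename fun v => (v, 0)
    have hσ : ∀ v, σ (X v) = X (v, 0) := fun v => rename_X _ _
    have h1 : ∀ P, q P = q (σ (rho M P)) := by
      have h2 : q = (q.comp σ).comp (rho M) := by
        refine MvPolynomial.algHom_ext fun a => ?_
        obtain ⟨v, l⟩ := a
        rw [AlgHom.comp_apply, AlgHom.comp_apply, rho_X, map_mul, map_mul, map_pow, map_pow,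
          map_neg, map_neg, map_one, map_one, hσ, hX]
      intro P
      exact DFunLike.congr_fun h2 P
    have h3 : RingHom.ker φ.toRingHom ≤ RingHom.ker (q.comp σ).toRingHom := by
      rw [hk, Ideal.span_le]
      rintro _ ⟨j, rfl⟩
      change q (σ (f j)) = 0
      have h4 := h1 (MvPolynomial.rename (em M hM j) (f j))
      rw [rho_em] at h4
      rw [← h4]
      exact hq0 (Sum.inl j)
    refine le_antisymm ?_ ?_
    · intro P hP
      have h4 : φ (rho M P) = 0 := hP
      have h5 : q (σ (rho M P)) = 0 := h3 h4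
      rw [← h1] at h5
      exact Ideal.Quotient.eq_zero_iff_mem.1 h5
    · rw [Ideal.span_le]
      rintro _ ⟨x, rfl⟩
      change φ (rho M (ueq M hM f x)) = 0
      rcases x with j | ⟨v, l⟩
      · change φ (rho M (MvPolynomial.rename (em M hM j) (f j))) = 0
        rw [rho_em]
        have : f j ∈ RingHom.ker φ.toRingHom := by
          rw [hk]
          exact Ideal.subset_span ⟨j, rfl⟩
        exact this
      · change φ (rho M (X (v, l.castSucc) + X (v, l.succ))) = 0
        rw [map_add, rho_X, rho_X]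
        have h4 : ((-1 : MvPolynomial ι k) ^ ((v, l.castSucc).2 : ℕ) * X (v, l.castSucc).1 +
            (-1) ^ ((v, l.succ).2 : ℕ) * X (v, l.succ).1) = 0 := by
          simp only [Fin.val_castSucc, Fin.val_succ, pow_succ]
          ring
        rw [h4, map_zero]

theorem Good.reindex {k A : Type} [Field k] [CommRing A] [Algebra k A] {B : Set k}
    {ι κ ι' κ' : Type} [Fintype κ] [Fintype κ'] (h : Good k A B ι κ) (r : ι ≃ ι')
    (s : κ ≃ κ') : Good k A B ι' κ' := by
  classical
  obtain ⟨f, φ, H, b, hφ, hk, hf, hc⟩ := h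
  let ρ : MvPolynomial ι k ≃ₐ[k] MvPolynomial ι' k := MvPolynomial.renameEquiv k r
  refine ⟨fun j => ρ (f (s.symm j)), φ.comp ρ.symm.toAlgHom, fun j => im r (H (s.symm j)),
    fun j => b (s.symm j), hφ.comp ρ.symm.surjective, ?_, fun j => (hf _).rename r r.injective,
    ?_⟩
  · have hr : (Set.range fun j => ρ (f (s.symm j))) = ρ '' Set.range f := by
      ext x
      constructor
      · rintro ⟨j, rfl⟩
        exact ⟨_, ⟨_, rfl⟩, rfl⟩
      · rintro ⟨_, ⟨y, rfl⟩, rfl⟩
        exact ⟨s y, by simp⟩
    rw [hr]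
    have h4 : Ideal.span (ρ '' Set.range f) =
        (Ideal.span (Set.range f)).map ρ.toAlgHom.toRingHom := by
      rw [Ideal.map_span]
      rfl
    rw [h4, ← hk]
    ext x
    constructor
    · intro hx
      have h5 : φ (ρ.symm x) = 0 := hx
      have h6 : ρ.symm x ∈ RingHom.ker φ.toRingHom := h5
      have h7 := Ideal.mem_map_of_mem ρ.toAlgHom.toRingHom h6
      have h8 : ρ.toAlgHom.toRingHom (ρ.symm x) = x := ρ.apply_symm_apply x
      rw [h8] at h7
      exact h7
    · intro hx
      have h5 : (RingHom.ker φ.toRingHom).map ρ.toAlgHom.toRingHom ≤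
          RingHom.ker (φ.comp ρ.symm.toAlgHom).toRingHom := by
        rw [Ideal.map_le_iff_le_comap]
        intro y hy
        have h6 : φ y = 0 := hy
        change φ (ρ.symm (ρ y)) = 0
        rw [ρ.symm_apply_apply]
        exact h6
      exact h5 hx
  · intro w
    obtain ⟨v, rfl⟩ := r.surjective w
    have h1 : ∀ j, cnt (im r (H (s.symm j))) (r v) = cnt (H (s.symm j)) v := fun j =>
      cnt_im r r.injective _ v
    rw [Finset.sum_congr rfl fun j _ => h1 j, s.symm.sum_comp fun x => cnt (H x) v]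
    exact hc v

theorem Good.addZero {k A : Type} [Field k] [CommRing A] [Algebra k A] {B : Set k}
    {ι : Type} {m : ℕ} (h : Good k A B ι (Fin m)) (z : ℕ) : Good k A B ι (Fin (m + z)) := by
  classical
  obtain ⟨f, φ, H, b, hφ, hk, hf, hc⟩ := h
  refine ⟨Fin.append f fun _ => 0, φ, Fin.append H fun _ => ∅, Fin.append b fun _ => 0, hφ,
    ?_, ?_, ?_⟩
  · rw [hk]
    refine le_antisymm ?_ ?_
    · rw [Ideal.span_le]
      rintro _ ⟨j, rfl⟩
      exact Ideal.subset_span ⟨Fin.castAdd z j, Fin.append_left _ _ j⟩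
    · rw [Ideal.span_le]
      rintro _ ⟨j, rfl⟩
      refine Fin.addCases (fun i => ?_) (fun i => ?_) j
      · rw [Fin.append_left]
        exact Ideal.subset_span ⟨i, rfl⟩
      · rw [Fin.append_right]
        exact Ideal.zero_mem _
  · intro j
    refine Fin.addCases (fun i => ?_) (fun i => ?_) j
    · rw [Fin.append_left, Fin.append_left, Fin.append_left]
      exact hf i
    · rw [Fin.append_right, Fin.append_right, Fin.append_right]
      exact Sp3.zero B
  · intro w
    rw [Fin.sum_univ_add]
    simp only [Fin.append_left, Fin.append_right, cnt_empty, Finset.sum_const_zero, add_zero]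
    exact hc w

end HG

end CUB
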